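import Mathlib

/-! # Project TM (MP_6f559f_gt): volumes and harmonic means of projections.
Definitions and statements of the parts. -/

set_option autoImplicit false

namespace Pool.Agent.N502.TM

open MeasureTheory Set Filter Topology
open scoped ENNReal Real InnerProductSpace

/-- The Euclidean space `ℝ^d`. -/
abbrev V (d : ℕ) := EuclideanSpace ℝ (Fin d)

/-- The real Hilbert space `L²(ℝ^d)`. -/
noncomputable abbrev L2 (d : ℕ) := Lp ℝ 2 (volume : Measure (V d))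

/-- The orthogonal group. -/
abbrev O (d : ℕ) := Matrix.orthogonalGroup (Fin d) ℝ

instance instMeasO (d : ℕ) : MeasurableSpace (O d) := borel _
instance instBorO (d : ℕ) : BorelSpace (O d) := ⟨rfl⟩

instance instSCM (d : ℕ) : SecondCountableTopology (Matrix (Fin d) (Fin d) ℝ) :=
  inferInstanceAs (SecondCountableTopology (Fin d → Fin d → ℝ))

instance instSCO (d : ℕ) : SecondCountableTopology (O d) :=
  TopologicalSpace.Subtype.secondCountableTopology _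

instance instCO (d : ℕ) : CompactSpace (O d) := by
  refine isCompact_iff_compactSpace.1
    (?_ : IsCompact ((Matrix.orthogonalGroup (Fin d) ℝ : Set (Matrix (Fin d) (Fin d) ℝ))))
  have h1 : IsCompact (Set.univ.pi fun _ : Fin d => Set.univ.pi fun _ : Fin d =>
      Metric.closedBall (0 : ℝ) 1) :=
    isCompact_univ_pi fun _ => isCompact_univ_pi fun _ => isCompact_closedBall _ _
  refine h1.of_isClosed_subset ?_ ?_
  · have : ((Matrix.orthogonalGroup (Fin d) ℝ : Set (Matrix (Fin d) (Fin d) ℝ))) =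
        {A | star A * A = 1} ∩ {A | A * star A = 1} := by
      ext A
      exact Iff.rfl
    rw [this]
    have h2 : Continuous fun A : Matrix (Fin d) (Fin d) ℝ => star A := continuous_star
    exact (isClosed_eq (h2.mul continuous_id) continuous_const).inter
      (isClosed_eq (continuous_id.mul h2) continuous_const)
  · intro A hA i _ j _
    simpa [mem_closedBall_zero_iff] using entry_norm_bound_of_unitary (𝕜 := ℝ) hA i j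

/-- The action of an orthogonal matrix on `ℝ^d`. -/
noncomputable def act {d : ℕ} (g : O d) (x : V d) : V d :=
  Matrix.toEuclideanLin (g : Matrix (Fin d) (Fin d) ℝ) x

/-- The first `i` coordinates. -/
noncomputable def pr {n i : ℕ} (h : i ≤ n) (x : V n) : V i :=
  WithLp.toLp 2 (fun j => x (Fin.castLE h j))

/-- The point with first coordinates `y` and last coordinate `t`. -/
noncomputable def ext {m : ℕ} (y : V m) (t : ℝ) : V (m + 1) :=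
  WithLp.toLp 2 (Fin.snoc (fun j => y j) t)

/-- The set of the first `i` coordinates of `g⁻¹ E`: an isometric copy of the projection of `E`
to the subspace `g (ℝ^i × 0)`. -/
def shadow {n i : ℕ} (h : i ≤ n) (g : O n) (E : Set (V n)) : Set (V i) :=
  (fun x => pr h (act g⁻¹ x)) '' E

/-- The subspace `g (ℝ^i × 0)`. -/
noncomputable def Sub (n i : ℕ) (g : O n) : Submodule ℝ (V n) :=
  Submodule.map (Matrix.toEuclideanLin (g : Matrix (Fin n) (Fin n) ℝ))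
    (Submodule.span ℝ (Set.range fun j : {j : Fin n // (j : ℕ) < i} =>
      (EuclideanSpace.single (j : Fin n) (1 : ℝ) : V n)))

/-! ## Heat kernels -/

/-- The heat kernel. -/
noncomputable def heat (d : ℕ) (s : ℝ) (z : V d) : ℝ :=
  (4 * π * s) ^ (-(d : ℝ) / 2) * Real.exp (-‖z‖ ^ 2 / (4 * s))

structure S_GAU : Prop where
  one : ∀ (d : ℕ) (s : ℝ), 0 < s → ∫⁻ x : V d, ENNReal.ofReal (heat d s x) = 1
  conv : ∀ (d : ℕ) (s t : ℝ), 0 < s → 0 < t → ∀ x : V d,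
    ∫⁻ y : V d, ENNReal.ofReal (heat d s (x - y)) * ENNReal.ofReal (heat d t y) =
      ENNReal.ofReal (heat d (s + t) x)
  tail : ∀ (d : ℕ) (ρ : ℝ), 0 < ρ →
    Tendsto (fun s : ℝ => ∫⁻ x : V d in {x | ρ < ‖x‖}, ENNReal.ofReal (heat d s x))
      (𝓝[>] 0) (𝓝 0)

/-- `T s` is the convolution with the heat kernel on `L²`. -/
structure IsHeat (d : ℕ) (T : ℝ → (L2 d →L[ℝ] L2 d)) : Prop where
  ae : ∀ s, 0 < s → ∀ f : L2 d,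
    (T s f : V d → ℝ) =ᵐ[volume] fun x => ∫ y, f y * heat d s (x - y)
  int : ∀ s, 0 < s → ∀ f g : L2 d,
    Integrable (fun p : V d × V d => f p.1 * g p.2 * heat d s (p.1 - p.2))
      ((volume : Measure (V d)).prod volume)
  inner : ∀ s, 0 < s → ∀ f g : L2 d,
    ⟪f, T s g⟫_ℝ = ∫ p : V d × V d, f p.1 * g p.2 * heat d s (p.1 - p.2)
      ∂((volume : Measure (V d)).prod volume)
  symm : ∀ s, 0 < s → ∀ f g : L2 d, ⟪T s f, g⟫_ℝ = ⟪f, T s g⟫_ℝ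
  norm_le : ∀ s, 0 < s → ‖T s‖ ≤ 1
  semi : ∀ s t, 0 < s → 0 < t → ∀ f : L2 d, T s (T t f) = T (s + t) f

def S_TOP : Prop := S_GAU → ∀ d : ℕ, ∃ T, IsHeat d T

/-! ## Combinatorics -/

noncomputable def uu (k : ℕ) : ℝ := (Nat.centralBinom k : ℝ) / 4 ^ k

noncomputable def et (k : ℕ) : ℝ := uu k / (2 * k - 1)

/-- The constant `ℓ = 1 / √π`, known only through these two bounds. -/
structure IsL (l : ℝ) : Prop where
  pos : 0 < l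
  up : ∀ k : ℕ, 1 ≤ k → uu k ≤ l / √k
  low : ∀ k : ℕ, 2 * l * √((k : ℝ) + 1 / 2) ≤ ∑ j ∈ Finset.range (k + 1), uu j

structure S_CMB : Prop where
  et_nonneg : ∀ k : ℕ, 0 ≤ et (k + 1)
  et_le : ∀ k : ℕ, et (k + 1) ≤ 1
  uu_nonneg : ∀ k : ℕ, 0 ≤ uu k
  uu_le : ∀ k : ℕ, uu k ≤ 1
  rcr : ∀ k : ℕ, uu (k + 1) = ∑ j ∈ Finset.range (k + 1), et (j + 1) * uu (k - j)
  exl : ∃ l : ℝ, IsL l

structure S_ABL : Prop where
  up : ∀ (l τ : ℝ) (Φ : ℝ → ℝ≥0∞), IsL l → 0 < τ → AntitoneOn Φ (Ici 0) →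
    ∑' k : ℕ, ENNReal.ofReal (√τ * uu (k + 1)) * Φ (((k : ℝ) + 1) * τ) ≤
      ENNReal.ofReal l * ∫⁻ s in Ioi (0 : ℝ), ENNReal.ofReal (s ^ (-(1 / 2) : ℝ)) * Φ s
  low : ∀ (l τ : ℝ) (Φ : ℝ → ℝ≥0∞), IsL l → 0 < τ → AntitoneOn Φ (Ici 0) →
    ENNReal.ofReal l *
        ∫⁻ s in Ioi (0 : ℝ), ENNReal.ofReal (s ^ (-(1 / 2) : ℝ)) * Φ (s + 2 * τ) ≤
      ∑' k : ℕ, ENNReal.ofReal (√τ * uu k) * Φ ((k : ℝ) * τ)

/-! ## The energy comparison -/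

/-- The energy `∑ u_k b^k ⟨f, T^k f⟩`. -/
noncomputable def en {H : Type} [NormedAddCommGroup H] [InnerProductSpace ℝ H]
    (T : H →L[ℝ] H) (b : ℝ) (f : H) : ℝ :=
  ∑' k : ℕ, uu k * b ^ k * ⟪f, (T ^ k) f⟫_ℝ

def S_HIL : Prop := S_CMB →
  ∀ (H : Type) [NormedAddCommGroup H] [InnerProductSpace ℝ H] [CompleteSpace H]
    (S : H →L[ℝ] H) (b : ℝ), 0 ≤ b → b < 1 → ‖S‖ ≤ 1 →
    (∀ f g : H, ⟪S f, g⟫_ℝ = ⟪f, S g⟫_ℝ) →
    ∀ (C C' : Set H) (J : ℝ), Convex ℝ C → IsClosed C → C.Nonempty →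
      (∀ f ∈ C, J ≤ en (S * S) b f) →
      (∀ (u : H) (I : ℝ), (∀ g ∈ C, I ≤ ⟪g, u⟫_ℝ) → ∃ w : H, ⟪w, w⟫_ℝ = ⟪u, u⟫_ℝ ∧
        (∀ k : ℕ, 1 ≤ k → ⟪u, ((S * S) ^ k) u⟫_ℝ ≤ ⟪w, ((S * S) ^ k) w⟫_ℝ) ∧
        ∀ g ∈ C', I ≤ ⟪g, w⟫_ℝ) →
      ∀ g ∈ C', J ≤ en (S * S) b g

/-- Probability densities in `L²` that vanish off `E`. -/
def Dens {d : ℕ} (E : Set (V d)) : Set (L2 d) :=
  {f | (∀ᵐ x, 0 ≤ f x) ∧ (∀ᵐ x, x ∉ E → f x = 0) ∧ ∫ x, f x = 1}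

structure S_DEN : Prop where
  convex : ∀ (d : ℕ) (E : Set (V d)), MeasurableSet E → volume E ≠ ∞ → Convex ℝ (Dens E)
  closed : ∀ (d : ℕ) (E : Set (V d)), MeasurableSet E → volume E ≠ ∞ → IsClosed (Dens E)
  nonempty : ∀ (d : ℕ) (E : Set (V d)), MeasurableSet E → volume E ≠ ∞ → volume E ≠ 0 →
    (Dens E).Nonempty
  ae_le : ∀ (d : ℕ) (E : Set (V d)), MeasurableSet E → volume E ≠ ∞ → ∀ (u : L2 d) (I : ℝ),
    (∀ g ∈ Dens E, I ≤ ⟪g, u⟫_ℝ) → ∀ᵐ x, x ∈ E → I ≤ u x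
  le_inner : ∀ (d : ℕ) (E : Set (V d)), MeasurableSet E → volume E ≠ ∞ →
    ∀ (w : L2 d) (I : ℝ), (∀ᵐ x, x ∈ E → I ≤ w x) → ∀ g ∈ Dens E, I ≤ ⟪g, w⟫_ℝ

/-- The reflection in the hyperplane `{⟨x, v⟩ = t}`, for a unit vector `v`. -/
noncomputable def rfl' {d : ℕ} (v : V d) (t : ℝ) (x : V d) : V d := x - (2 * (⟪x, v⟫_ℝ - t)) • v

/-- Polarization of functions, towards the side `{⟨x, v⟩ ≤ t}`. -/
noncomputable def polF {d : ℕ} (v : V d) (t : ℝ) (u : V d → ℝ) (x : V d) : ℝ :=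
  open Classical in
  if ⟪x, v⟫_ℝ ≤ t then max (u x) (u (rfl' v t x)) else min (u x) (u (rfl' v t x))

/-- Polarization of sets. -/
def polS {d : ℕ} (v : V d) (t : ℝ) (E : Set (V d)) : Set (V d) :=
  {x | (⟪x, v⟫_ℝ ≤ t ∧ (x ∈ E ∨ rfl' v t x ∈ E)) ∨ (t < ⟪x, v⟫_ℝ ∧ x ∈ E ∧ rfl' v t x ∈ E)}

structure S_PLS : Prop where
  meas : ∀ (d : ℕ) (v : V d) (t : ℝ) (E : Set (V d)), ‖v‖ = 1 → MeasurableSet E →
    MeasurableSet (polS v t E)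
  vol : ∀ (d : ℕ) (v : V d) (t : ℝ) (E : Set (V d)), ‖v‖ = 1 → MeasurableSet E →
    volume (polS v t E) = volume E
  bdd : ∀ (d : ℕ) (v : V d) (t : ℝ) (E : Set (V d)) (R : ℝ), ‖v‖ = 1 → 0 ≤ t →
    E ⊆ Metric.closedBall 0 R → polS v t E ⊆ Metric.closedBall 0 R
  mp : ∀ (d : ℕ) (v : V d) (t : ℝ), ‖v‖ = 1 → MeasurePreserving (rfl' v t)
  ae_le : ∀ (d : ℕ) (v : V d) (t : ℝ) (E : Set (V d)) (u : V d → ℝ) (I : ℝ), ‖v‖ = 1 →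
    (∀ᵐ x, x ∈ E → I ≤ u x) → ∀ᵐ x, x ∈ polS v t E → I ≤ polF v t u x

def S_POL : Prop := S_PLS → ∀ (d : ℕ) (T : ℝ → (L2 d →L[ℝ] L2 d)), IsHeat d T →
  ∀ (v : V d) (t : ℝ), ‖v‖ = 1 → ∀ u : L2 d, ∃ w : L2 d,
    (w : V d → ℝ) =ᵐ[volume] polF v t u ∧ ⟪w, w⟫_ℝ = ⟪u, u⟫_ℝ ∧
    ∀ s, 0 < s → ⟪u, T s u⟫_ℝ ≤ ⟪w, T s w⟫_ℝ

def S_CMP : Prop := S_CMB → S_HIL → S_DEN → S_PLS → S_POL →
  ∀ (d : ℕ) (T : ℝ → (L2 d →L[ℝ] L2 d)), IsHeat d T →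
  ∀ (v : V d) (t τ b : ℝ), ‖v‖ = 1 → 0 < τ → 0 ≤ b → b < 1 →
  ∀ E : Set (V d), MeasurableSet E → volume E ≠ ∞ →
  ∀ J : ℝ, (∀ f ∈ Dens E, J ≤ en (T τ) b f) → ∀ f ∈ Dens (polS v t E), J ≤ en (T τ) b f

/-- `B` is obtained from `A` by finitely many polarizations towards half-spaces containing 0. -/
def Reach {d : ℕ} (A B : Set (V d)) : Prop :=
  Relation.ReflTransGen (fun A' B' : Set (V d) => ∃ (v : V d) (t : ℝ), ‖v‖ = 1 ∧ 0 ≤ t ∧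
    B' = polS v t A') A B

def S_PCV : Prop := S_PLS → ∀ (d : ℕ), 1 ≤ d → ∀ (E : Set (V d)) (R r : ℝ), MeasurableSet E →
  E ⊆ Metric.closedBall 0 R → 0 ≤ r → volume (Metric.ball (0 : V d) r) = volume E →
  ∀ ε : ℝ≥0∞, 0 < ε → ∃ E' : Set (V d), Reach E E' ∧
    volume (symmDiff E' (Metric.ball (0 : V d) r)) < ε

def S_BAL : Prop := S_CMB → S_PLS → S_CMP → S_PCV → S_DEN → S_HIL → S_POL →
  ∀ (d : ℕ), 1 ≤ d →
  ∀ (T : ℝ → (L2 d →L[ℝ] L2 d)), IsHeat d T →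
  ∀ (τ b : ℝ), 0 < τ → 0 ≤ b → b < 1 →
  ∀ (E : Set (V d)) (R r : ℝ), MeasurableSet E → E ⊆ Metric.closedBall 0 R → 0 ≤ r →
  volume (Metric.ball (0 : V d) r) = volume E →
  ∀ J : ℝ, (∀ f ∈ Dens E, J ≤ en (T τ) b f) →
    ∀ f ∈ Dens (Metric.ball (0 : V d) r), J ≤ en (T τ) b f

/-! ## Energies and lines -/

/-- The kernel `∫ s^(-1/2) e^(-λ s) heat s z ds`. -/
noncomputable def kern (d : ℕ) (l : ℝ) (z : V d) : ℝ≥0∞ :=
  ∫⁻ s in Ioi (0 : ℝ), ENNReal.ofReal (s ^ (-(1 / 2) : ℝ) * Real.exp (-l * s) * heat d s z)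

def S_KER : Prop := ∀ d : ℕ, 2 ≤ d → ∃ ψ : ℝ → ℝ≥0∞,
  (∀ x, 0 ≤ x → ψ x ≠ 0 ∧ ψ x ≠ ∞) ∧ AntitoneOn ψ (Ici 0) ∧
  Tendsto ψ (𝓝[>] 0) (𝓝 (ψ 0)) ∧
  ∀ (l : ℝ) (z : V d), 0 ≤ l → z ≠ 0 →
    kern d l z = ENNReal.ofReal (‖z‖ ^ (-((d : ℝ) - 1))) * ψ (l * ‖z‖ ^ 2)

noncomputable def WW (d : ℕ) (l : ℝ) (f : V d → ℝ≥0∞) : ℝ≥0∞ :=
  ∫⁻ x, ∫⁻ z, f x * f z * kern d l (x - z)

def S_SUM : Prop := S_CMB → S_ABL → S_GAU → ∀ (d : ℕ), 2 ≤ d →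
  ∀ (T : ℝ → (L2 d →L[ℝ] L2 d)), IsHeat d T → ∀ (l τ c : ℝ), IsL l → 0 < τ → 0 < c →
  ∀ f : L2 d, (∀ᵐ x, 0 ≤ f x) →
    ENNReal.ofReal (√τ * en (T τ) (Real.exp (-c * τ)) f) ≤
      ENNReal.ofReal (√τ * ‖f‖ ^ 2) +
        ENNReal.ofReal l * WW d c (fun x => ENNReal.ofReal (f x)) ∧
    ENNReal.ofReal (l * Real.exp (-2 * c * τ)) * WW d c (fun x => ENNReal.ofReal (T τ f x)) ≤
      ENNReal.ofReal (√τ * en (T τ) (Real.exp (-c * τ)) f)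

/-- The projection of `g⁻¹ E` to the first `m` coordinates. -/
def sh {m : ℕ} (g : O (m + 1)) (E : Set (V (m + 1))) : Set (V m) :=
  {y | ∃ t : ℝ, act g (ext y t) ∈ E}

noncomputable def QQ (m : ℕ) (ν : Measure (O (m + 1))) (f : V (m + 1) → ℝ≥0∞) : ℝ≥0∞ :=
  ∫⁻ g, ∫⁻ y : V m, (∫⁻ t : ℝ, f (act g (ext y t))) ^ 2 ∂volume ∂ν

def S_HAR : Prop := ∀ d : ℕ, ∃ ν : Measure (O d), IsProbabilityMeasure ν ∧ ν.IsMulLeftInvariant

def S_INV : Prop := ∀ (d : ℕ) (ν : Measure (O d)), IsProbabilityMeasure ν →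
  ν.IsMulLeftInvariant → ν.IsMulRightInvariant

def S_QWW : Prop := S_KER → S_INV → ∀ m : ℕ, 1 ≤ m → ∀ ν : Measure (O (m + 1)),
  IsProbabilityMeasure ν → ν.IsMulLeftInvariant → ∃ C : ℝ≥0∞, C ≠ 0 ∧ C ≠ ∞ ∧
    ∀ f : V (m + 1) → ℝ≥0∞, Measurable f → QQ m ν f = C * WW (m + 1) 0 f

def S_CSQ : Prop := ∀ m : ℕ, ∀ ν : Measure (O (m + 1)), IsProbabilityMeasure ν →
  ∀ (K : Set (V (m + 1))) (f : V (m + 1) → ℝ≥0∞), IsCompact K → Measurable f →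
    (∀ x, x ∉ K → f x = 0) →
    (∫⁻ x, f x) ^ 2 * ∫⁻ g, (volume (sh g K))⁻¹ ∂ν ≤ QQ m ν f

noncomputable def fB (d : ℕ) (r : ℝ) (x : V d) : ℝ≥0∞ :=
  (Metric.ball (0 : V d) r).indicator
    (fun x => ENNReal.ofReal ((r ^ 2 - ‖x‖ ^ 2) ^ (-(1 / 2) : ℝ))) x

structure S_EQB : Prop where
  mass : ∀ (m : ℕ) (r : ℝ), 0 < r →
    ∫⁻ x, fB (m + 1) r x = ENNReal.ofReal π * volume (Metric.ball (0 : V m) r)
  line : ∀ (m : ℕ) (r : ℝ), 0 < r → ∀ (ν : Measure (O (m + 1))), IsProbabilityMeasure ν →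
    QQ m ν (fB (m + 1) r) = ENNReal.ofReal (π ^ 2) * volume (Metric.ball (0 : V m) r)

/-- The inequality in codimension one. -/
def S_COD : Prop := S_GAU → S_TOP → S_CMB → S_BAL → S_CMP → S_HIL → S_DEN → S_PLS → S_POL →
  S_PCV → S_ABL → S_SUM → S_KER → S_INV → S_QWW → S_CSQ → S_EQB →
  ∀ m : ℕ, 1 ≤ m → ∀ ν : Measure (O (m + 1)), IsProbabilityMeasure ν →
  ν.IsMulLeftInvariant → ∀ K : Set (V (m + 1)), IsCompact K →
    ∫⁻ g, (volume (sh g K))⁻¹ ∂ν ≤ (volume (Metric.ball (0 : V m) 1))⁻¹ *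
      (volume (Metric.ball (0 : V (m + 1)) 1) / volume K) ^ ((m : ℝ) / (m + 1))

/-- The inequality for compact sets, in all codimensions. -/
def S_CHN : Prop := S_HAR → S_INV →
  (∀ m : ℕ, 1 ≤ m → ∀ ν : Measure (O (m + 1)), IsProbabilityMeasure ν →
    ν.IsMulLeftInvariant → ∀ K : Set (V (m + 1)), IsCompact K →
    ∫⁻ g, (volume (sh g K))⁻¹ ∂ν ≤ (volume (Metric.ball (0 : V m) 1))⁻¹ *
      (volume (Metric.ball (0 : V (m + 1)) 1) / volume K) ^ ((m : ℝ) / (m + 1))) →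
  ∀ (n i : ℕ) (_ : 1 ≤ i) (h : i ≤ n) (μ : Measure (O n)), IsProbabilityMeasure μ →
  μ.IsMulLeftInvariant → ∀ K : Set (V n), IsCompact K →
    ∫⁻ g, (volume (shadow h g K))⁻¹ ∂μ ≤ (volume (Metric.ball (0 : V i) 1))⁻¹ *
      (volume (Metric.ball (0 : V n) 1) / volume K) ^ ((i : ℝ) / n)

/-- The projection of `E` to the subspace `Sub n i g` has the measure of the shadow. -/
def S_PRJ : Prop := ∀ (n i : ℕ) (h : i ≤ n) (g : O n) (E : Set (V n)),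
  volume ((Sub n i g).orthogonalProjectionOnto '' E) = volume (shadow h g E)

end Pool.Agent.N502.TM
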