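import Pool.Agent.N502.TM.Stm

/-! # Codimension one: pieces of the assembly -/

set_option autoImplicit false

namespace Pool.Agent.N502.TM

open MeasureTheory Set Filter Topology
open scoped ENNReal Real InnerProductSpace

theorem continuous_act {d : ℕ} : Continuous fun p : O d × V d => act p.1 p.2 := by
  unfold act
  have h : ∀ (g : O d) (x : V d), Matrix.toEuclideanLin (g : Matrix (Fin d) (Fin d) ℝ) x =
      WithLp.toLp 2 ((g : Matrix (Fin d) (Fin d) ℝ).mulVec (WithLp.ofLp x)) := fun g x => rfl
  simp only [h]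
  refine (PiLp.continuous_toLp 2 _).comp ?_
  refine Continuous.matrix_mulVec ?_ ?_
  · exact continuous_subtype_val.comp continuous_fst
  · exact (PiLp.continuous_ofLp 2 _).comp continuous_snd

theorem act_mul {d : ℕ} (g h : O d) (x : V d) : act (g * h) x = act g (act h x) := by
  unfold act
  simp [Matrix.toEuclideanLin, Matrix.toLpLin, Matrix.toLin'_mul]

theorem act_one {d : ℕ} (x : V d) : act (1 : O d) x = x := by
  unfold act
  simp [Matrix.toEuclideanLin]

theorem act_inv_act {d : ℕ} (g : O d) (x : V d) : act g⁻¹ (act g x) = x := by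
  rw [← act_mul, inv_mul_cancel, act_one]

theorem act_act_inv {d : ℕ} (g : O d) (x : V d) : act g (act g⁻¹ x) = x := by
  rw [← act_mul, mul_inv_cancel, act_one]

theorem continuous_ext {m : ℕ} : Continuous fun p : V m × ℝ => ext p.1 p.2 := by
  unfold ext
  refine (PiLp.continuous_toLp 2 _).comp ?_
  refine continuous_pi fun j => ?_
  refine Fin.lastCases ?_ (fun j => ?_) j
  · simpa using continuous_snd
  · simp only [Fin.snoc_castSucc]
    exact (continuous_apply j).comp ((PiLp.continuous_ofLp 2 _).comp continuous_fst)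

/-- The last coordinate and the first coordinates. -/
theorem ext_pr {m : ℕ} (x : V (m + 1)) : ext (pr (Nat.le_succ m) x) (x (Fin.last m)) = x := by
  unfold ext pr
  ext j
  refine Fin.lastCases ?_ (fun j => ?_) j
  · simp
  · simp only [Fin.snoc_castSucc]
    rfl

theorem pr_ext {m : ℕ} (y : V m) (t : ℝ) : pr (Nat.le_succ m) (ext y t) = y := by
  unfold ext pr
  ext j
  simp only
  have : Fin.castLE (Nat.le_succ m) j = Fin.castSucc j := rfl
  rw [this, Fin.snoc_castSucc]

theorem continuous_pr {n i : ℕ} (h : i ≤ n) : Continuous fun x : V n => pr h x := by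
  unfold pr
  refine (PiLp.continuous_toLp 2 _).comp ?_
  exact continuous_pi fun j => (continuous_apply _).comp (PiLp.continuous_ofLp 2 _)

theorem sh_eq {m : ℕ} (g : O (m + 1)) (E : Set (V (m + 1))) :
    sh g E = shadow (Nat.le_succ m) g E := by
  ext y
  constructor
  · rintro ⟨t, ht⟩
    exact ⟨_, ht, by simp only [act_inv_act, pr_ext]⟩
  · rintro ⟨x, hx, rfl⟩
    refine ⟨(act g⁻¹ x) (Fin.last m), ?_⟩
    simp only [ext_pr, act_act_inv]
    exact hx

/-- The compact set of pairs. -/
theorem isCompact_pairs {n i : ℕ} (h : i ≤ n) {K : Set (V n)} (hK : IsCompact K) :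
    IsCompact {p : O n × V i | p.2 ∈ shadow h p.1 K} := by
  have h1 : IsCompact ((univ : Set (O n)) ×ˢ K) := isCompact_univ.prod hK
  have h2 : Continuous fun p : O n × V n => (p.1, pr h (act p.1⁻¹ p.2)) :=
    continuous_fst.prodMk ((continuous_pr h).comp
      (continuous_act.comp ((continuous_inv.comp continuous_fst).prodMk continuous_snd)))
  convert h1.image h2 using 1
  ext ⟨g, y⟩
  constructor
  · rintro ⟨x, hx, hxy⟩
    exact ⟨(g, x), ⟨mem_univ _, hx⟩, by simp only at hxy ⊢; rw [hxy]⟩
  · rintro ⟨⟨g', x⟩, ⟨-, hx⟩, e⟩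
    simp only [Prod.mk.injEq] at e
    obtain ⟨rfl, e⟩ := e
    exact ⟨x, hx, e⟩

theorem isCompact_shadow {n i : ℕ} (h : i ≤ n) {K : Set (V n)} (hK : IsCompact K) (g : O n) :
    IsCompact (shadow h g K) :=
  hK.image ((continuous_pr h).comp (continuous_act.comp (continuous_const.prodMk continuous_id)))

theorem measurable_vol_shadow {n i : ℕ} (h : i ≤ n) {K : Set (V n)} (hK : IsCompact K) :
    Measurable fun g : O n => volume (shadow h g K) := by
  have h1 := (isCompact_pairs h hK).isClosed.measurableSet
  exact measurable_measure_prodMk_left h1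

theorem shadow_mono {n i : ℕ} (h : i ≤ n) (g : O n) {E F : Set (V n)} (hEF : E ⊆ F) :
    shadow h g E ⊆ shadow h g F := image_mono hEF

/-- Thickenings. -/
theorem shadow_iInter {n i : ℕ} (h : i ≤ n) (g : O n) {K : Set (V n)} (hK : IsCompact K)
    (δ : ℕ → ℝ) (hδ : ∀ k, 0 < δ k) (hδ0 : Tendsto δ atTop (𝓝 0)) :
    ⋂ k, shadow h g (Metric.cthickening (δ k) K) = shadow h g K := by
  apply subset_antisymm
  · intro y hy
    rw [mem_iInter] at hy
    have hc : IsClosed {x : V n | pr h (act g⁻¹ x) = y} :=
      isClosed_eq ((continuous_pr h).comp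
        (continuous_act.comp (continuous_const.prodMk continuous_id))) continuous_const
    -- the sets are compact and directed
    by_contra hne
    have h1 : Disjoint K {x : V n | pr h (act g⁻¹ x) = y} := by
      rw [Set.disjoint_left]
      intro x hx hx'
      exact hne ⟨x, hx, hx'⟩
    obtain ⟨ε, hε, hd⟩ := h1.exists_cthickenings hK hc
    obtain ⟨k, hk⟩ := (hδ0.eventually (gt_mem_nhds hε)).exists
    obtain ⟨x, hx, hxy⟩ := hy k
    refine Set.disjoint_left.1 hd (Metric.cthickening_mono hk.le _ hx) ?_
    exact Metric.self_subset_cthickening _ hxy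
  · exact subset_iInter fun k => shadow_mono h g (Metric.self_subset_cthickening _)

/-- Passage from thickenings to the compact set. -/
theorem lint_thick {n i : ℕ} (h : i ≤ n) (μ : Measure (O n)) {K : Set (V n)} (hK : IsCompact K)
    (b : ℝ≥0∞) (hb : ∀ ρ : ℝ, 0 < ρ →
      ∫⁻ g, (volume (shadow h g (Metric.cthickening ρ K)))⁻¹ ∂μ ≤ b) :
    ∫⁻ g, (volume (shadow h g K))⁻¹ ∂μ ≤ b := by
  set δ : ℕ → ℝ := fun k => 1 / ((k : ℝ) + 1) with hδ
  have hδp : ∀ k, 0 < δ k := fun k => by positivity
  have hδ0 : Tendsto δ atTop (𝓝 0) := tendsto_one_div_add_atTop_nhds_zero_nat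
  have hδa : Antitone δ := fun a b' hab => by
    simp only [hδ]
    apply one_div_le_one_div_of_le (by positivity)
    have : (a : ℝ) ≤ b' := by exact_mod_cast hab
    linarith
  have h1 : ∀ g : O n, (volume (shadow h g K))⁻¹ =
      ⨆ k, (volume (shadow h g (Metric.cthickening (δ k) K)))⁻¹ := by
    intro g
    rw [← ENNReal.inv_iInf]
    congr 1
    rw [← shadow_iInter h g hK δ hδp hδ0]
    apply Antitone.measure_iInter
    · intro a b' hab
      exact shadow_mono h g (Metric.cthickening_mono (hδa hab) K)
    · intro k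
      exact (isCompact_shadow h hK.cthickening g).isClosed.measurableSet.nullMeasurableSet
    · exact ⟨0, (isCompact_shadow h hK.cthickening g).measure_lt_top.ne⟩
  simp only [h1]
  rw [lintegral_iSup]
  · exact iSup_le fun k => hb _ (hδp k)
  · exact fun k => (measurable_vol_shadow h hK.cthickening).inv
  · intro a b' hab g
    simp only
    apply ENNReal.inv_le_inv.2
    exact measure_mono (shadow_mono h g (Metric.cthickening_mono (hδa hab) K))

end Pool.Agent.N502.TM
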