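import Pool.Agent.N502.TM.Cod1

/-! # Codimension one: mass and kernel comparison -/

set_option autoImplicit false

namespace Pool.Agent.N502.TM

open MeasureTheory Set Filter Topology
open scoped ENNReal Real InnerProductSpace

theorem heat_pos {d : ℕ} {s : ℝ} (hs : 0 < s) (z : V d) : 0 < heat d s z := by
  unfold heat
  positivity

theorem continuous_heat (d : ℕ) (s : ℝ) : Continuous (heat d s) := by
  unfold heat
  exact continuous_const.mul (Real.continuous_exp.comp
    (((continuous_norm.pow 2).neg).div_const _))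

theorem heat_le {d : ℕ} {s : ℝ} (hs : 0 < s) (z : V d) :
    heat d s z ≤ (4 * π * s) ^ (-(d : ℝ) / 2) := by
  unfold heat
  have h1 : Real.exp (-‖z‖ ^ 2 / (4 * s)) ≤ 1 := by
    apply Real.exp_le_one_iff.2
    apply div_nonpos_of_nonpos_of_nonneg _ (by positivity)
    nlinarith [sq_nonneg ‖z‖]
  have h2 : 0 ≤ (4 * π * s) ^ (-(d : ℝ) / 2) := by positivity
  calc _ ≤ (4 * π * s) ^ (-(d : ℝ) / 2) * 1 := mul_le_mul_of_nonneg_left h1 h2
    _ = _ := mul_one _

theorem dens_integrable {d : ℕ} {E : Set (V d)} {f : L2 d} (hf : f ∈ Dens E) :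
    Integrable (fun x => f x) := by
  by_contra h
  have := integral_undef h
  rw [hf.2.2] at this
  exact one_ne_zero this

theorem dens_lint {d : ℕ} {E : Set (V d)} {f : L2 d} (hf : f ∈ Dens E) :
    ∫⁻ x, ENNReal.ofReal (f x) = 1 := by
  rw [← ofReal_integral_eq_lintegral_ofReal (dens_integrable hf) hf.1, hf.2.2, ENNReal.ofReal_one]

theorem mass_ge (hG : S_GAU) {d : ℕ} {T : ℝ → (L2 d →L[ℝ] L2 d)} (hT : IsHeat d T)
    {K : Set (V d)} (ρ τ : ℝ) (hτ : 0 < τ) {f : L2 d} (hf : f ∈ Dens K) :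
    1 ≤ (∫⁻ x in Metric.cthickening ρ K, ENNReal.ofReal (T τ f x)) +
      ∫⁻ x in {x : V d | ρ < ‖x‖}, ENNReal.ofReal (heat d τ x) := by
  set Kρ := Metric.cthickening ρ K with hKρ
  have hKm : MeasurableSet Kρ := Metric.isClosed_cthickening.measurableSet
  set tl := ∫⁻ x in {x : V d | ρ < ‖x‖}, ENNReal.ofReal (heat d τ x) with htl
  have hfm : AEMeasurable (fun y => ENNReal.ofReal (f y)) :=
    (Lp.aestronglyMeasurable f).aemeasurable.ennreal_ofReal
  have hhm : Measurable fun p : V d × V d => ENNReal.ofReal (heat d τ (p.1 - p.2)) :=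
    ((continuous_heat d τ).measurable.comp (measurable_fst.sub measurable_snd)).ennreal_ofReal
  -- pointwise formula
  have h1 : ∀ᵐ x : V d, ENNReal.ofReal (T τ f x) =
      ∫⁻ y, ENNReal.ofReal (f y) * ENNReal.ofReal (heat d τ (x - y)) := by
    filter_upwards [hT.ae τ hτ f] with x hx
    rw [hx, ofReal_integral_eq_lintegral_ofReal]
    · apply lintegral_congr_ae
      filter_upwards [hf.1] with y hy
      rw [ENNReal.ofReal_mul hy]
    · refine (dens_integrable hf).mul_bdd (c := (4 * π * τ) ^ (-(d : ℝ) / 2)) ?_ ?_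
      · exact ((continuous_heat d τ).comp (continuous_const.sub continuous_id)).aestronglyMeasurable
      · filter_upwards with y
        rw [Real.norm_of_nonneg (heat_pos hτ _).le]
        exact heat_le hτ _
    · filter_upwards [hf.1] with y hy
      exact mul_nonneg hy (heat_pos hτ _).le
  -- Tonelli
  have h2 : (∫⁻ x in Kρ, ENNReal.ofReal (T τ f x)) =
      ∫⁻ y, ENNReal.ofReal (f y) * ∫⁻ x in Kρ, ENNReal.ofReal (heat d τ (x - y)) := by
    rw [lintegral_congr_ae (ae_restrict_of_ae h1)]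
    rw [lintegral_lintegral_swap]
    · apply lintegral_congr
      intro y
      rw [lintegral_const_mul'' _ ?_]
      exact ((hhm.comp (measurable_id.prodMk measurable_const)).aemeasurable)
    · have m1 : AEMeasurable (fun p : V d × V d => ENNReal.ofReal (f p.2))
          ((volume.restrict Kρ).prod volume) :=
        hfm.comp_quasiMeasurePreserving
          (Measure.quasiMeasurePreserving_snd (μ := volume.restrict Kρ) (ν := volume))
      exact m1.mul hhm.aemeasurable
  have h3 : ∀ y ∈ K, 1 ≤ (∫⁻ x in Kρ, ENNReal.ofReal (heat d τ (x - y))) + tl := by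
    intro y hy
    have e1 : ∫⁻ x : V d, ENNReal.ofReal (heat d τ (x - y)) = 1 := by
      rw [lintegral_sub_right_eq_self (fun x : V d => ENNReal.ofReal (heat d τ x)) y]
      exact hG.one d τ hτ
    have e2 : tl = ∫⁻ x in {x : V d | ρ < ‖x - y‖}, ENNReal.ofReal (heat d τ (x - y)) := by
      have m1 : MeasurableSet {x : V d | ρ < ‖x‖} := measurableSet_lt measurable_const measurable_norm
      have m2 : MeasurableSet {x : V d | ρ < ‖x - y‖} :=
        measurableSet_lt measurable_const (measurable_id.sub measurable_const).norm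
      rw [htl, ← lintegral_indicator m1, ← lintegral_indicator m2,
        ← lintegral_sub_right_eq_self _ y]
      rfl
    calc (1 : ℝ≥0∞) = ∫⁻ x : V d, ENNReal.ofReal (heat d τ (x - y)) := e1.symm
      _ = (∫⁻ x in Kρ, ENNReal.ofReal (heat d τ (x - y))) +
          ∫⁻ x in Kρᶜ, ENNReal.ofReal (heat d τ (x - y)) := (lintegral_add_compl _ hKm).symm
      _ ≤ _ := by
          gcongr
          rw [e2]
          apply lintegral_mono_set
          intro x hx
          by_contra hle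
          have hle : ‖x - y‖ ≤ ρ := not_lt.1 hle
          apply hx
          apply Metric.closedBall_subset_cthickening hy ρ
          rw [Metric.mem_closedBall, dist_eq_norm]
          exact hle
  calc (1 : ℝ≥0∞) = ∫⁻ y, ENNReal.ofReal (f y) := (dens_lint hf).symm
    _ ≤ ∫⁻ y, (ENNReal.ofReal (f y) * (∫⁻ x in Kρ, ENNReal.ofReal (heat d τ (x - y))) +
        ENNReal.ofReal (f y) * tl) := by
        apply lintegral_mono_ae
        filter_upwards [hf.2.1] with y hy
        by_cases hyK : y ∈ K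
        · rw [← mul_add]
          calc ENNReal.ofReal (f y) = ENNReal.ofReal (f y) * 1 := (mul_one _).symm
            _ ≤ _ := by gcongr; exact h3 y hyK
        · rw [hy hyK]; simp
    _ = _ := by
        rw [lintegral_add_right' _ (hfm.mul_const _), lintegral_mul_const'' _ hfm, dens_lint hf, one_mul,
          h2]

theorem WW_mono {d : ℕ} {l : ℝ} {f g : V d → ℝ≥0∞} (h : ∀ x, f x ≤ g x) :
    WW d l f ≤ WW d l g := by
  unfold WW
  gcongr
  · exact h _
  · exact h _

theorem WW_congr {d : ℕ} {l : ℝ} {f g : V d → ℝ≥0∞} (h : f =ᵐ[volume] g) :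
    WW d l f = WW d l g := by
  unfold WW
  apply lintegral_congr_ae
  filter_upwards [h] with x hx
  apply lintegral_congr_ae
  filter_upwards [h] with z hz
  rw [hx, hz]

theorem WW_ker {d : ℕ} (hd : 1 ≤ d) {ψ : ℝ → ℝ≥0∞}
    (h0 : ∀ x, 0 ≤ x → ψ x ≠ 0 ∧ ψ x ≠ ∞) (ha : AntitoneOn ψ (Ici 0))
    (hk : ∀ (l : ℝ) (z : V d), 0 ≤ l → z ≠ 0 →
      kern d l z = ENNReal.ofReal (‖z‖ ^ (-((d : ℝ) - 1))) * ψ (l * ‖z‖ ^ 2))
    {F : V d → ℝ≥0∞} {R c : ℝ} (hR : 0 ≤ R) (hc : 0 ≤ c) (hF : ∀ x, R < ‖x‖ → F x = 0) :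
    WW d 0 F ≤ ψ 0 / ψ (4 * c * R ^ 2) * WW d c F := by
  have hx0 : (0 : ℝ) ≤ 4 * c * R ^ 2 := by positivity
  have hne : ψ 0 / ψ (4 * c * R ^ 2) ≠ ∞ :=
    (ENNReal.div_lt_top (h0 0 le_rfl).2 (h0 _ hx0).1).ne
  unfold WW
  rw [← lintegral_const_mul' _ _ hne]
  apply lintegral_mono
  intro x
  simp only
  rw [← lintegral_const_mul' _ _ hne]
  apply lintegral_mono_ae
  have hz : ∀ᵐ z : V d, z ≠ x := by
    obtain ⟨e, rfl⟩ : ∃ e, d = e + 1 := ⟨d - 1, by omega⟩
    exact compl_mem_ae_iff.2 (measure_singleton x)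
  filter_upwards [hz] with z hz
  by_cases hx : R < ‖x‖
  · rw [hF x hx]; simp
  by_cases hz' : R < ‖z‖
  · rw [hF z hz']; simp
  push Not at hx hz'
  have hxz : x - z ≠ 0 := sub_ne_zero.2 (Ne.symm hz)
  rw [hk 0 _ le_rfl hxz, hk c _ hc hxz, zero_mul]
  have h1 : ψ (4 * c * R ^ 2) ≤ ψ (c * ‖x - z‖ ^ 2) := by
    apply ha (by simp only [mem_Ici]; positivity) (by simp only [mem_Ici]; positivity)
    have h2 : ‖x - z‖ ≤ 2 * R := (norm_sub_le _ _).trans (by linarith)
    have h3 : ‖x - z‖ ^ 2 ≤ (2 * R) ^ 2 := by gcongr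
    nlinarith
  have h4 : ψ 0 ≤ ψ 0 / ψ (4 * c * R ^ 2) * ψ (c * ‖x - z‖ ^ 2) := by
    calc ψ 0 = ψ 0 / ψ (4 * c * R ^ 2) * ψ (4 * c * R ^ 2) :=
          (ENNReal.div_mul_cancel (h0 _ hx0).1 (h0 _ hx0).2).symm
      _ ≤ _ := by gcongr
  calc F x * F z * (ENNReal.ofReal (‖x - z‖ ^ (-((d : ℝ) - 1))) * ψ 0)
      ≤ F x * F z * (ENNReal.ofReal (‖x - z‖ ^ (-((d : ℝ) - 1))) *
        (ψ 0 / ψ (4 * c * R ^ 2) * ψ (c * ‖x - z‖ ^ 2))) := by gcongr
    _ = _ := by ring

end Pool.Agent.N502.TM
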