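import Pool.Agent.N502.TM.Cod2

/-! # Codimension one: the main inequality -/

set_option autoImplicit false

namespace Pool.Agent.N502.TM

open MeasureTheory Set Filter Topology
open scoped ENNReal Real InnerProductSpace

theorem kern_anti {d : ℕ} {c : ℝ} (hc : 0 ≤ c) (z : V d) : kern d c z ≤ kern d 0 z := by
  unfold kern
  apply setLIntegral_mono' measurableSet_Ioi
  intro s hs
  apply ENNReal.ofReal_le_ofReal
  have hs' : 0 < s := hs
  have h1 : Real.exp (-c * s) ≤ Real.exp (-0 * s) := by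
    apply Real.exp_le_exp.2
    nlinarith
  have h2 : 0 ≤ s ^ (-(1 / 2) : ℝ) := by positivity
  exact mul_le_mul_of_nonneg_right (mul_le_mul_of_nonneg_left h1 h2) (heat_pos hs' z).le

theorem WW_anti {d : ℕ} {c : ℝ} (hc : 0 ≤ c) (f : V d → ℝ≥0∞) : WW d c f ≤ WW d 0 f := by
  unfold WW
  gcongr
  exact kern_anti hc _

section core

variable {m : ℕ} {T : ℝ → (L2 (m + 1) →L[ℝ] L2 (m + 1))}

theorem step_one (hG : S_GAU) (hT : IsHeat (m + 1) T) {l : ℝ} (hl : IsL l) (hm : 1 ≤ m)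
    (hSum : ∀ (l τ c : ℝ), IsL l → 0 < τ → 0 < c →
      ∀ f : L2 (m + 1), (∀ᵐ x, 0 ≤ f x) →
        ENNReal.ofReal (√τ * en (T τ) (Real.exp (-c * τ)) f) ≤
          ENNReal.ofReal (√τ * ‖f‖ ^ 2) +
            ENNReal.ofReal l * WW (m + 1) c (fun x => ENNReal.ofReal (f x)) ∧
        ENNReal.ofReal (l * Real.exp (-2 * c * τ)) *
            WW (m + 1) c (fun x => ENNReal.ofReal (T τ f x)) ≤
          ENNReal.ofReal (√τ * en (T τ) (Real.exp (-c * τ)) f))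
    {ψ : ℝ → ℝ≥0∞}
    (h0 : ∀ x, 0 ≤ x → ψ x ≠ 0 ∧ ψ x ≠ ∞) (ha : AntitoneOn ψ (Ici 0))
    (hk : ∀ (l : ℝ) (z : V (m + 1)), 0 ≤ l → z ≠ 0 →
      kern (m + 1) l z = ENNReal.ofReal (‖z‖ ^ (-(((m + 1 : ℕ) : ℝ) - 1))) * ψ (l * ‖z‖ ^ 2))
    (ν : Measure (O (m + 1))) {C : ℝ≥0∞}
    (hQ : ∀ f : V (m + 1) → ℝ≥0∞, Measurable f → QQ m ν f = C * WW (m + 1) 0 f)
    (hCS : ∀ (K : Set (V (m + 1))) (f : V (m + 1) → ℝ≥0∞), IsCompact K → Measurable f →
      (∀ x, x ∉ K → f x = 0) →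
      (∫⁻ x, f x) ^ 2 * ∫⁻ g, (volume (sh g K))⁻¹ ∂ν ≤ QQ m ν f)
    {K : Set (V (m + 1))} (hK : IsCompact K) {ρ R c τ : ℝ} (hR : 0 ≤ R)
    (hKR : ∀ x ∈ Metric.cthickening ρ K, ‖x‖ ≤ R) (hc : 0 < c) (hτ : 0 < τ)
    {g : L2 (m + 1)} (hg : ∀ᵐ x, 0 ≤ g x)
    (hex : ∃ f ∈ Dens K, en (T τ) (Real.exp (-c * τ)) f ≤ en (T τ) (Real.exp (-c * τ)) g + 1) :
    ENNReal.ofReal (l * Real.exp (-2 * c * τ)) *
        (1 - ∫⁻ x in {x : V (m + 1) | ρ < ‖x‖}, ENNReal.ofReal (heat (m + 1) τ x)) ^ 2 *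
        ∫⁻ k, (volume (sh k (Metric.cthickening ρ K)))⁻¹ ∂ν ≤
      C * (ψ 0 / ψ (4 * c * R ^ 2)) * (ENNReal.ofReal (√τ * ‖g‖ ^ 2) + ENNReal.ofReal (√τ) +
        ENNReal.ofReal l * WW (m + 1) 0 (fun x => ENNReal.ofReal (g x))) := by
  obtain ⟨f, hf, hfg⟩ := hex
  set Kρ := Metric.cthickening ρ K with hKρ
  set X := ∫⁻ k, (volume (sh k Kρ))⁻¹ ∂ν with hX
  set b := Real.exp (-c * τ) with hb
  set D := ψ 0 / ψ (4 * c * R ^ 2) with hD
  have hKc : IsCompact Kρ := hK.cthickening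
  have hKm : MeasurableSet Kρ := hKc.isClosed.measurableSet
  set F : V (m + 1) → ℝ≥0∞ := Kρ.indicator (fun x => ENNReal.ofReal (T τ f x)) with hF
  have hFm : Measurable F :=
    ((Lp.stronglyMeasurable (T τ f)).measurable.ennreal_ofReal).indicator hKm
  have hmass : 1 - (∫⁻ x in {x : V (m + 1) | ρ < ‖x‖}, ENNReal.ofReal (heat (m + 1) τ x)) ≤
      ∫⁻ x, F x := by
    rw [tsub_le_iff_right, hF, lintegral_indicator hKm]
    exact mass_ge hG hT ρ τ hτ hf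
  have h1 := hCS Kρ F hKc hFm (fun x hx => by rw [hF, Set.indicator_of_notMem hx])
  rw [hQ F hFm] at h1
  have h2 : WW (m + 1) 0 F ≤ D * WW (m + 1) c F :=
    WW_ker (by omega) h0 ha hk hR hc.le (fun x hx => by
      rw [hF, Set.indicator_of_notMem]
      intro hxK
      exact absurd (hKR x hxK) (not_le.2 hx))
  have h3 : WW (m + 1) c F ≤ WW (m + 1) c (fun x => ENNReal.ofReal (T τ f x)) := by
    apply WW_mono
    intro x
    rw [hF]
    exact Set.indicator_le_self _ _ _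
  obtain ⟨-, h4⟩ := hSum l τ c hl hτ hc f hf.1
  obtain ⟨h5, -⟩ := hSum l τ c hl hτ hc g hg
  have h6 : ENNReal.ofReal (√τ * en (T τ) b f) ≤
      ENNReal.ofReal (√τ * ‖g‖ ^ 2) + ENNReal.ofReal (√τ) +
        ENNReal.ofReal l * WW (m + 1) 0 (fun x => ENNReal.ofReal (g x)) := by
    have hs : 0 ≤ √τ := Real.sqrt_nonneg _
    calc ENNReal.ofReal (√τ * en (T τ) b f)
        ≤ ENNReal.ofReal (√τ * en (T τ) b g + √τ) := by
          apply ENNReal.ofReal_le_ofReal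
          nlinarith
      _ ≤ ENNReal.ofReal (√τ * en (T τ) b g) + ENNReal.ofReal (√τ) := ENNReal.ofReal_add_le
      _ ≤ (ENNReal.ofReal (√τ * ‖g‖ ^ 2) +
          ENNReal.ofReal l * WW (m + 1) c (fun x => ENNReal.ofReal (g x))) +
            ENNReal.ofReal (√τ) := by gcongr
      _ ≤ (ENNReal.ofReal (√τ * ‖g‖ ^ 2) +
          ENNReal.ofReal l * WW (m + 1) 0 (fun x => ENNReal.ofReal (g x))) +
            ENNReal.ofReal (√τ) := by
          gcongr
          exact WW_anti hc.le _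
      _ = _ := by ring
  calc ENNReal.ofReal (l * Real.exp (-2 * c * τ)) *
        (1 - ∫⁻ x in {x : V (m + 1) | ρ < ‖x‖}, ENNReal.ofReal (heat (m + 1) τ x)) ^ 2 * X
      ≤ ENNReal.ofReal (l * Real.exp (-2 * c * τ)) * (∫⁻ x, F x) ^ 2 * X := by gcongr
    _ = ENNReal.ofReal (l * Real.exp (-2 * c * τ)) * ((∫⁻ x, F x) ^ 2 * X) := by ring
    _ ≤ ENNReal.ofReal (l * Real.exp (-2 * c * τ)) * (C * WW (m + 1) 0 F) := by gcongr
    _ ≤ ENNReal.ofReal (l * Real.exp (-2 * c * τ)) *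
        (C * (D * WW (m + 1) c (fun x => ENNReal.ofReal (T τ f x)))) := by
        gcongr
        exact h2.trans (by gcongr)
    _ = C * D * (ENNReal.ofReal (l * Real.exp (-2 * c * τ)) *
        WW (m + 1) c (fun x => ENNReal.ofReal (T τ f x))) := by ring
    _ ≤ C * D * ENNReal.ofReal (√τ * en (T τ) b f) := by gcongr
    _ ≤ _ := by gcongr

/-- The limits `τ → 0`, `c → 0`. -/
theorem step_two (hG : S_GAU) {l : ℝ} (hl : 0 < l) {ψ : ℝ → ℝ≥0∞}
    (h0 : ∀ x, 0 ≤ x → ψ x ≠ 0 ∧ ψ x ≠ ∞) (ht : Tendsto ψ (𝓝[>] 0) (𝓝 (ψ 0)))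
    {C X W : ℝ≥0∞} (hC : C ≠ ∞) {ρ R N : ℝ} (hρ : 0 < ρ) (hR : 0 < R)
    (h : ∀ c τ : ℝ, 0 < c → 0 < τ → ENNReal.ofReal (l * Real.exp (-2 * c * τ)) *
        (1 - ∫⁻ x in {x : V (m + 1) | ρ < ‖x‖}, ENNReal.ofReal (heat (m + 1) τ x)) ^ 2 * X ≤
      C * (ψ 0 / ψ (4 * c * R ^ 2)) * (ENNReal.ofReal (√τ * N) + ENNReal.ofReal (√τ) +
        ENNReal.ofReal l * W)) : X ≤ C * W := by
  have hl' : ENNReal.ofReal l ≠ 0 := by simpa using hl
  have hcne : ∀ c : ℝ, 0 < c → ψ 0 / ψ (4 * c * R ^ 2) ≠ ∞ := fun c hc =>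
    (ENNReal.div_lt_top (h0 0 le_rfl).2 (h0 _ (by positivity)).1).ne
  -- first limit
  have h1 : ∀ c : ℝ, 0 < c → ENNReal.ofReal l * X ≤
      C * (ψ 0 / ψ (4 * c * R ^ 2)) * (ENNReal.ofReal l * W) := by
    intro c hc
    have t1 : Tendsto (fun τ : ℝ => ENNReal.ofReal (l * Real.exp (-2 * c * τ))) (𝓝[>] 0)
        (𝓝 (ENNReal.ofReal l)) := by
      have : Tendsto (fun τ : ℝ => ENNReal.ofReal (l * Real.exp (-2 * c * τ))) (𝓝 0)
          (𝓝 (ENNReal.ofReal (l * Real.exp (-2 * c * 0)))) := by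
        apply ENNReal.tendsto_ofReal
        exact (by fun_prop : Continuous fun τ : ℝ => l * Real.exp (-2 * c * τ)).tendsto 0
      simp only [mul_zero, Real.exp_zero, mul_one] at this
      exact this.mono_left nhdsWithin_le_nhds
    have t2 : Tendsto (fun τ : ℝ => (1 - ∫⁻ x in {x : V (m + 1) | ρ < ‖x‖},
        ENNReal.ofReal (heat (m + 1) τ x)) ^ 2) (𝓝[>] 0) (𝓝 1) := by
      have e1 := ENNReal.Tendsto.sub (tendsto_const_nhds (x := (1 : ℝ≥0∞)))
        (hG.tail (m + 1) ρ hρ) (Or.inl ENNReal.one_ne_top)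
      have e2 := ENNReal.Tendsto.pow (n := 2) e1
      simpa using e2
    have t3 : Tendsto (fun τ : ℝ => ENNReal.ofReal (l * Real.exp (-2 * c * τ)) *
        (1 - ∫⁻ x in {x : V (m + 1) | ρ < ‖x‖}, ENNReal.ofReal (heat (m + 1) τ x)) ^ 2 * X)
        (𝓝[>] 0) (𝓝 (ENNReal.ofReal l * X)) := by
      have e1 := ENNReal.Tendsto.mul t1 (Or.inl hl') t2 (Or.inl one_ne_zero)
      rw [mul_one] at e1
      exact ENNReal.Tendsto.mul_const e1 (Or.inl hl')
    have t4 : Tendsto (fun τ : ℝ => C * (ψ 0 / ψ (4 * c * R ^ 2)) *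
        (ENNReal.ofReal (√τ * N) + ENNReal.ofReal (√τ) + ENNReal.ofReal l * W)) (𝓝[>] 0)
        (𝓝 (C * (ψ 0 / ψ (4 * c * R ^ 2)) * (ENNReal.ofReal l * W))) := by
      apply ENNReal.Tendsto.const_mul _ (Or.inr (ENNReal.mul_ne_top hC (hcne c hc)))
      have e1 : Tendsto (fun τ : ℝ => ENNReal.ofReal (√τ * N)) (𝓝[>] 0) (𝓝 0) := by
        have := ENNReal.tendsto_ofReal ((by fun_prop : Continuous fun τ : ℝ => √τ * N).tendsto 0)
        simp only [Real.sqrt_zero, zero_mul, ENNReal.ofReal_zero] at this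
        exact this.mono_left nhdsWithin_le_nhds
      have e2 : Tendsto (fun τ : ℝ => ENNReal.ofReal (√τ)) (𝓝[>] 0) (𝓝 0) := by
        have := ENNReal.tendsto_ofReal ((by fun_prop : Continuous fun τ : ℝ => √τ).tendsto 0)
        simp only [Real.sqrt_zero, ENNReal.ofReal_zero] at this
        exact this.mono_left nhdsWithin_le_nhds
      have e3 := (e1.add e2).add (tendsto_const_nhds (x := ENNReal.ofReal l * W))
      simpa using e3
    refine le_of_tendsto_of_tendsto t3 t4 ?_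
    filter_upwards [self_mem_nhdsWithin] with τ hτ
    exact h c τ hc hτ
  -- second limit
  have h2 : ENNReal.ofReal l * X ≤ C * (ENNReal.ofReal l * W) := by
    have t1 : Tendsto (fun c : ℝ => 4 * c * R ^ 2) (𝓝[>] 0) (𝓝[>] 0) := by
      apply tendsto_nhdsWithin_iff.2
      constructor
      · have := (by fun_prop : Continuous fun c : ℝ => 4 * c * R ^ 2).tendsto 0
        simp only [mul_zero, zero_mul] at this
        exact this.mono_left nhdsWithin_le_nhds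
      · filter_upwards [self_mem_nhdsWithin] with c hc
        have : (0 : ℝ) < c := hc
        simp only [mem_Ioi]
        positivity
    have t2 : Tendsto (fun c : ℝ => ψ 0 / ψ (4 * c * R ^ 2)) (𝓝[>] 0) (𝓝 1) := by
      have e1 := ENNReal.Tendsto.div (tendsto_const_nhds (x := ψ 0)) (Or.inl (h0 0 le_rfl).1)
        (ht.comp t1) (Or.inl (h0 0 le_rfl).2)
      rw [ENNReal.div_self (h0 0 le_rfl).1 (h0 0 le_rfl).2] at e1
      exact e1
    have t3 : Tendsto (fun c : ℝ => C * (ψ 0 / ψ (4 * c * R ^ 2)) * (ENNReal.ofReal l * W))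
        (𝓝[>] 0) (𝓝 (C * (ENNReal.ofReal l * W))) := by
      by_cases hC0 : C = 0
      · simp [hC0]
      have e1 := ENNReal.Tendsto.const_mul (a := C) t2 (Or.inl one_ne_zero)
      rw [mul_one] at e1
      exact ENNReal.Tendsto.mul_const e1 (Or.inl hC0)
    refine le_of_tendsto_of_tendsto tendsto_const_nhds t3 ?_
    filter_upwards [self_mem_nhdsWithin] with c hc
    exact h1 c hc
  have h3 : ENNReal.ofReal l * X ≤ ENNReal.ofReal l * (C * W) := by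
    calc _ ≤ _ := h2
      _ = _ := by ring
  exact (ENNReal.mul_le_mul_iff_right hl' ENNReal.ofReal_ne_top).1 h3

end core

end Pool.Agent.N502.TM
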