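import Pool.Agent.N502.TM.Cod3

/-! # Codimension one: the test function and the conclusion -/

set_option autoImplicit false

namespace Pool.Agent.N502.TM

open MeasureTheory Set Filter Topology
open scoped ENNReal Real InnerProductSpace

noncomputable def gR {d : ℕ} (r r' : ℝ) (x : V d) : ℝ :=
  (Metric.ball (0 : V d) r').indicator (fun x => (r ^ 2 - ‖x‖ ^ 2) ^ (-(1 / 2) : ℝ)) x

theorem measurable_gR {d : ℕ} (r r' : ℝ) : Measurable (gR (d := d) r r') := by
  unfold gR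
  apply Measurable.indicator _ measurableSet_ball
  exact (measurable_const.sub (measurable_norm.pow_const 2)).pow_const _

theorem gR_nonneg {d : ℕ} {r r' : ℝ} (h : r' < r) (h0 : 0 < r') (x : V d) : 0 ≤ gR r r' x := by
  unfold gR
  apply Set.indicator_nonneg
  intro y hy
  rw [mem_ball_zero_iff] at hy
  have : 0 ≤ r ^ 2 - ‖y‖ ^ 2 := by nlinarith [norm_nonneg y]
  positivity

theorem gR_le {d : ℕ} {r r' : ℝ} (h : r' < r) (h0 : 0 < r') (x : V d) :
    gR r r' x ≤ (r ^ 2 - r' ^ 2) ^ (-(1 / 2) : ℝ) := by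
  unfold gR
  have hp : 0 < r ^ 2 - r' ^ 2 := by nlinarith
  by_cases hx : x ∈ Metric.ball (0 : V d) r'
  · rw [Set.indicator_of_mem hx]
    rw [mem_ball_zero_iff] at hx
    apply Real.rpow_le_rpow_of_nonpos hp
    · nlinarith [norm_nonneg x]
    · norm_num
  · rw [Set.indicator_of_notMem hx]
    positivity

theorem gR_le_fB {d : ℕ} {r r' : ℝ} (h : r' < r) (x : V d) :
    ENNReal.ofReal (gR r r' x) ≤ fB d r x := by
  unfold gR fB
  by_cases hx : x ∈ Metric.ball (0 : V d) r'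
  · rw [Set.indicator_of_mem hx, Set.indicator_of_mem (Metric.ball_subset_ball h.le hx)]
  · rw [Set.indicator_of_notMem hx]
    simp

/-- Mass of the truncated densities. -/
theorem tendsto_mass {d : ℕ} {r : ℝ} (hr : 0 < r) (δ : ℕ → ℝ) (hδ : ∀ k, 0 < δ k)
    (hδm : Monotone δ) (hδr : ∀ k, δ k < r) (hδt : Tendsto δ atTop (𝓝 r)) :
    Tendsto (fun k => ∫⁻ x : V d, ENNReal.ofReal (gR r (δ k) x)) atTop (𝓝 (∫⁻ x, fB d r x)) := by
  apply lintegral_tendsto_of_tendsto_of_monotone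
  · exact fun k => (measurable_gR r (δ k)).ennreal_ofReal.aemeasurable
  · filter_upwards with x
    intro a b hab
    apply ENNReal.ofReal_le_ofReal
    unfold gR
    by_cases hx : x ∈ Metric.ball (0 : V d) (δ a)
    · rw [Set.indicator_of_mem hx, Set.indicator_of_mem (Metric.ball_subset_ball (hδm hab) hx)]
    · rw [Set.indicator_of_notMem hx]
      exact gR_nonneg (hδr b) (hδ b) x
  · filter_upwards with x
    by_cases hx : x ∈ Metric.ball (0 : V d) r
    · apply tendsto_const_nhds.congr'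
      have hx' : ‖x‖ < r := mem_ball_zero_iff.1 hx
      filter_upwards [hδt.eventually (lt_mem_nhds hx')] with k hk
      unfold gR fB
      rw [Set.indicator_of_mem hx, Set.indicator_of_mem (mem_ball_zero_iff.2 hk)]
    · apply tendsto_const_nhds.congr'
      filter_upwards with k
      unfold gR fB
      rw [Set.indicator_of_notMem hx, Set.indicator_of_notMem]
      · simp
      · intro h
        exact hx (Metric.ball_subset_ball (hδr k).le h)

theorem test_fun {d : ℕ} {r r' : ℝ} (h : r' < r) (h0 : 0 < r')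
    (hM0 : ∫⁻ x : V d, ENNReal.ofReal (gR r r' x) ≠ 0)
    (hM1 : ∫⁻ x : V d, ENNReal.ofReal (gR r r' x) ≠ ∞) :
    ∃ g : L2 d, g ∈ Dens (Metric.ball (0 : V d) r) ∧
      (fun x => ENNReal.ofReal (g x)) =ᵐ[volume] fun x =>
        (∫⁻ x : V d, ENNReal.ofReal (gR r r' x))⁻¹ * ENNReal.ofReal (gR r r' x) := by
  set M := ∫⁻ x : V d, ENNReal.ofReal (gR r r' x) with hM
  have hint : Integrable (gR (d := d) r r') := by
    refine ⟨(measurable_gR r r').aestronglyMeasurable, ?_⟩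
    rw [hasFiniteIntegral_iff_ofReal (ae_of_all _ fun x => gR_nonneg h h0 x)]
    exact lt_top_iff_ne_top.2 hM1
  have hmem : MemLp (fun x : V d => M.toReal⁻¹ * gR r r' x) 2 volume := by
    apply MemLp.const_mul
    rw [memLp_two_iff_integrable_sq (measurable_gR r r').aestronglyMeasurable]
    have := hint.mul_bdd (c := (r ^ 2 - r' ^ 2) ^ (-(1 / 2) : ℝ))
      (measurable_gR r r').aestronglyMeasurable (ae_of_all _ fun x => by
        rw [Real.norm_of_nonneg (gR_nonneg h h0 x)]; exact gR_le h h0 x)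
    simpa only [sq] using this
  have hMp : 0 < M.toReal := ENNReal.toReal_pos hM0 hM1
  have hcoe := hmem.coeFn_toLp
  refine ⟨hmem.toLp _, ⟨?_, ?_, ?_⟩, ?_⟩
  · filter_upwards [hcoe] with x hx
    rw [hx]
    exact mul_nonneg (inv_nonneg.2 hMp.le) (gR_nonneg h h0 x)
  · filter_upwards [hcoe] with x hx hxb
    rw [hx]
    unfold gR
    rw [Set.indicator_of_notMem (fun hh => hxb (Metric.ball_subset_ball h.le hh)), mul_zero]
  · rw [integral_congr_ae hcoe, integral_const_mul,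
      integral_eq_lintegral_of_nonneg_ae (ae_of_all _ fun x => gR_nonneg h h0 x)
        (measurable_gR r r').aestronglyMeasurable, ← hM]
    exact inv_mul_cancel₀ hMp.ne'
  · filter_upwards [hcoe] with x hx
    rw [hx, ENNReal.ofReal_mul (inv_nonneg.2 hMp.le), ENNReal.ofReal_inv_of_pos hMp,
      ENNReal.ofReal_toReal hM1]

theorem WW_smul {d : ℕ} {l : ℝ} {a : ℝ≥0∞} (ha : a ≠ ∞) (G : V d → ℝ≥0∞) :
    WW d l (fun x => a * G x) = a ^ 2 * WW d l G := by
  unfold WW
  rw [← lintegral_const_mul' _ _ (ENNReal.pow_ne_top ha)]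
  apply lintegral_congr
  intro x
  rw [← lintegral_const_mul' _ _ (ENNReal.pow_ne_top ha)]
  apply lintegral_congr
  intro z
  ring

theorem measurable_fB (d : ℕ) (r : ℝ) : Measurable (fB d r) := by
  unfold fB
  apply Measurable.indicator _ measurableSet_ball
  exact ((measurable_const.sub (measurable_norm.pow_const 2)).pow_const _).ennreal_ofReal

/-- The conclusion for the thickened set, from test functions. -/
theorem step_three {m : ℕ} {r : ℝ} (hr : 0 < r) {C X : ℝ≥0∞} (hE : S_EQB)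
    (ν : Measure (O (m + 1))) (hν : IsProbabilityMeasure ν)
    (hQ : ∀ f : V (m + 1) → ℝ≥0∞, Measurable f → QQ m ν f = C * WW (m + 1) 0 f)
    (h : ∀ g : L2 (m + 1), g ∈ Dens (Metric.ball (0 : V (m + 1)) r) →
      X ≤ C * WW (m + 1) 0 (fun x => ENNReal.ofReal (g x))) :
    X ≤ (volume (Metric.ball (0 : V m) r))⁻¹ := by
  set v := volume (Metric.ball (0 : V m) r) with hv
  have hv0 : v ≠ 0 := (Metric.measure_ball_pos volume _ hr).ne'
  have hv1 : v ≠ ∞ := measure_ball_lt_top.ne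
  have hπ0 : ENNReal.ofReal π ≠ 0 := by simpa using Real.pi_pos
  set δ : ℕ → ℝ := fun k => r * (1 - 1 / ((k : ℝ) + 2)) with hδ
  have hδ1 : ∀ k : ℕ, 0 < δ k := fun k => by
    have h1 : (0 : ℝ) < (k : ℝ) + 2 := by positivity
    have h2 : 1 / ((k : ℝ) + 2) < 1 := by
      rw [div_lt_one h1]; linarith [(Nat.cast_nonneg k : (0 : ℝ) ≤ k)]
    exact mul_pos hr (by linarith)
  have hδ2 : ∀ k : ℕ, δ k < r := fun k => by
    have h1 : (0 : ℝ) < 1 / ((k : ℝ) + 2) := by positivity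
    have h3 : r * (1 - 1 / ((k : ℝ) + 2)) < r * 1 := mul_lt_mul_of_pos_left (by linarith) hr
    rw [mul_one] at h3
    exact h3
  have hδ3 : Monotone δ := fun a b hab => by
    have h1 : (a : ℝ) ≤ b := by exact_mod_cast hab
    have h2 : 1 / ((b : ℝ) + 2) ≤ 1 / ((a : ℝ) + 2) :=
      one_div_le_one_div_of_le (by positivity) (by linarith)
    exact mul_le_mul_of_nonneg_left (by linarith) hr.le
  have hδ4 : Tendsto δ atTop (𝓝 r) := by
    have h1 : Tendsto (fun k : ℕ => 1 / ((k : ℝ) + 2)) atTop (𝓝 0) := by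
      have := tendsto_one_div_add_atTop_nhds_zero_nat (𝕜 := ℝ)
      have h2 := this.comp (tendsto_add_atTop_nat 1)
      refine h2.congr fun k => ?_
      simp only [Function.comp]
      push_cast
      ring_nf
    have h2 := (h1.const_sub 1).const_mul r
    rw [sub_zero, mul_one] at h2
    exact h2
  have hlim := tendsto_mass (d := m + 1) hr δ hδ1 hδ3 hδ2 hδ4
  rw [hE.mass m r hr, ← hv] at hlim
  have hne : ENNReal.ofReal π * v ≠ 0 := mul_ne_zero hπ0 hv0
  have hnt : ENNReal.ofReal π * v ≠ ∞ := ENNReal.mul_ne_top ENNReal.ofReal_ne_top hv1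
  have hQB := hE.line m r hr ν hν
  rw [← hv] at hQB
  have hlim2 : Tendsto (fun k => ((∫⁻ x : V (m + 1), ENNReal.ofReal (gR r (δ k) x))⁻¹) ^ 2 *
      QQ m ν (fB (m + 1) r)) atTop (𝓝 ((ENNReal.ofReal π * v)⁻¹ ^ 2 * QQ m ν (fB (m + 1) r))) := by
    have h1 := (ENNReal.Tendsto.pow (n := 2) hlim.inv)
    refine ENNReal.Tendsto.mul_const h1 (Or.inr ?_)
    rw [hQB]
    exact ENNReal.mul_ne_top ENNReal.ofReal_ne_top hv1
  have hval : (ENNReal.ofReal π * v)⁻¹ ^ 2 * QQ m ν (fB (m + 1) r) = v⁻¹ := by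
    rw [hQB, ENNReal.mul_inv (Or.inl hπ0) (Or.inl ENNReal.ofReal_ne_top),
      ENNReal.ofReal_pow Real.pi_pos.le]
    calc ((ENNReal.ofReal π)⁻¹ * v⁻¹) ^ 2 * (ENNReal.ofReal π ^ 2 * v)
        = ((ENNReal.ofReal π)⁻¹ * ENNReal.ofReal π) ^ 2 * (v⁻¹ * v) * v⁻¹ := by ring
      _ = v⁻¹ := by
        rw [ENNReal.inv_mul_cancel hπ0 ENNReal.ofReal_ne_top, ENNReal.inv_mul_cancel hv0 hv1]
        simp
  rw [hval] at hlim2
  refine ge_of_tendsto hlim2 ?_
  filter_upwards [hlim.eventually_ne hne, hlim.eventually_lt_const (lt_top_iff_ne_top.2 hnt)]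
    with k hk0 hk1
  obtain ⟨g, hg, hge⟩ := test_fun (hδ2 k) (hδ1 k) hk0 hk1.ne
  have hMinv : (∫⁻ x : V (m + 1), ENNReal.ofReal (gR r (δ k) x))⁻¹ ≠ ∞ :=
    ENNReal.inv_ne_top.2 hk0
  calc X ≤ C * WW (m + 1) 0 (fun x => ENNReal.ofReal (g x)) := h g hg
    _ = C * ((∫⁻ x : V (m + 1), ENNReal.ofReal (gR r (δ k) x))⁻¹ ^ 2 *
        WW (m + 1) 0 (fun x => ENNReal.ofReal (gR r (δ k) x))) := by
        rw [WW_congr hge, WW_smul hMinv]
    _ ≤ C * ((∫⁻ x : V (m + 1), ENNReal.ofReal (gR r (δ k) x))⁻¹ ^ 2 *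
        WW (m + 1) 0 (fB (m + 1) r)) := by
        gcongr
        exact WW_mono fun x => gR_le_fB (hδ2 k) x
    _ = _ := by rw [hQ _ (measurable_fB _ _)]; ring

theorem cod : S_COD := by
  intro hG hTop hCMB hBal hCmp hHil hDen hPls hPol hPcv hAbl hSum hKer hInv hQww hCsq hEqb
    m hm ν hν hνl K hK
  by_cases hK0 : volume K = 0
  · rw [hK0, ENNReal.div_zero (Metric.measure_ball_pos volume _ one_pos).ne',
      ENNReal.top_rpow_of_pos (by positivity), ENNReal.mul_top]
    · exact le_top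
    · exact ENNReal.inv_ne_zero.2 measure_ball_lt_top.ne
  have hK1 : volume K ≠ ∞ := hK.measure_lt_top.ne
  set κ := volume (Metric.ball (0 : V (m + 1)) 1) with hκ
  set κ' := volume (Metric.ball (0 : V m) 1) with hκ'
  have hκ0 : κ ≠ 0 := (Metric.measure_ball_pos volume _ one_pos).ne'
  have hκ1 : κ ≠ ∞ := measure_ball_lt_top.ne
  have hκ0' : κ' ≠ 0 := (Metric.measure_ball_pos volume _ one_pos).ne'
  have hκ1' : κ' ≠ ∞ := measure_ball_lt_top.ne
  set q := (volume K / κ).toReal with hq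
  have hq0 : 0 < q := ENNReal.toReal_pos (ENNReal.div_ne_zero.2 ⟨hK0, hκ1⟩)
    (ENNReal.div_lt_top hK1 hκ0).ne
  set r : ℝ := q ^ (1 / ((m : ℝ) + 1)) with hr
  have hr0 : 0 < r := Real.rpow_pos_of_pos hq0 _
  have hrq : r ^ (m + 1) = q := by
    rw [hr, ← Real.rpow_natCast, ← Real.rpow_mul hq0.le]
    push_cast
    rw [one_div, inv_mul_cancel₀ (by positivity), Real.rpow_one]
  have hball : volume (Metric.ball (0 : V (m + 1)) r) = volume K := by
    rw [Measure.addHaar_ball _ _ hr0.le]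
    simp only [finrank_euclideanSpace, Fintype.card_fin]
    rw [hrq, hq, ENNReal.ofReal_toReal (ENNReal.div_lt_top hK1 hκ0).ne]
    exact ENNReal.div_mul_cancel hκ0 hκ1
  -- the bound
  have hmain : ∫⁻ g, (volume (sh g K))⁻¹ ∂ν ≤ (volume (Metric.ball (0 : V m) r))⁻¹ := by
    simp only [sh_eq]
    apply lint_thick _ _ hK
    intro ρ hρ
    simp only [← sh_eq]
    obtain ⟨C, hC0, hC1, hQ⟩ := hQww hKer hInv m hm ν hν hνl
    apply step_three hr0 hEqb ν hν hQ
    intro g hg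
    obtain ⟨T, hT⟩ := hTop hG (m + 1)
    obtain ⟨l, hl⟩ := hCMB.exl
    obtain ⟨ψ, h0, ha, ht, hk⟩ := hKer (m + 1) (by omega)
    obtain ⟨R', hR'⟩ := (hK.cthickening (r := ρ)).isBounded.exists_norm_le
    set R := max R' 1 with hR
    have hR0 : 0 < R := lt_max_of_lt_right one_pos
    obtain ⟨R₁, hR₁⟩ := hK.isBounded.exists_norm_le
    refine step_two (m := m) (N := ‖g‖ ^ 2) (R := R) (ρ := ρ) hG hl.pos h0 ht hC1 hρ hR0 ?_
    intro c τ hc hτ
    refine step_one hG hT hl hm (fun l' τ' c' => hSum hCMB hAbl hG (m + 1) (by omega) T hT l' τ' c')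
      h0 ha hk ν hQ (hCsq m ν hν) hK hR0.le (fun x hx => (hR' x hx).trans (le_max_left _ _))
      hc hτ hg.1 ?_
    by_contra hcon
    push Not at hcon
    have hb0 : 0 ≤ Real.exp (-c * τ) := (Real.exp_pos _).le
    have hb1 : Real.exp (-c * τ) < 1 := by
      rw [Real.exp_lt_one_iff]
      nlinarith
    have := hBal hCMB hPls hCmp hPcv hDen hHil hPol (m + 1) (by omega) T hT τ
      (Real.exp (-c * τ)) hτ hb0 hb1 K R₁ r hK.isClosed.measurableSet
      (fun x hx => mem_closedBall_zero_iff.2 (hR₁ x hx)) hr0.le hball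
      (en (T τ) (Real.exp (-c * τ)) g + 1) (fun f hf => (hcon f hf).le) g hg
    linarith
  refine hmain.trans (le_of_eq ?_)
  -- arithmetic
  have e1 : volume (Metric.ball (0 : V m) r) = ENNReal.ofReal (r ^ m) * κ' := by
    rw [Measure.addHaar_ball_of_pos _ _ hr0]
    simp only [finrank_euclideanSpace, Fintype.card_fin]
    rfl
  have e2 : κ / volume K = (ENNReal.ofReal r ^ (m + 1))⁻¹ := by
    rw [← hball, Measure.addHaar_ball _ _ hr0.le]
    simp only [finrank_euclideanSpace, Fintype.card_fin]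
    rw [ENNReal.ofReal_pow hr0.le, ← hκ, ENNReal.div_eq_inv_mul,
      ENNReal.mul_inv (Or.inr hκ1) (Or.inr hκ0), mul_assoc, ENNReal.inv_mul_cancel hκ0 hκ1, mul_one]
  have hr1 : ENNReal.ofReal r ≠ 0 := by simpa using hr0
  rw [e1, e2, ENNReal.inv_rpow, ← ENNReal.rpow_natCast, ← ENNReal.rpow_mul,
    ENNReal.ofReal_pow hr0.le]
  have e3 : ((m + 1 : ℕ) : ℝ) * ((m : ℝ) / ((m : ℝ) + 1)) = (m : ℝ) := by
    push_cast
    field_simp
  rw [e3, ENNReal.rpow_natCast, ENNReal.mul_inv (Or.inl (pow_ne_zero _ hr1))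
    (Or.inl (ENNReal.pow_ne_top ENNReal.ofReal_ne_top)), mul_comm]

end Pool.Agent.N502.TM
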