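import Pool.Agent.N502.TM.Cod4
import Pool.Agent.N386.TM_EQB

/-! # Borel sets, the ball, and the optimal constant -/

set_option autoImplicit false

namespace Pool.Agent.N502.TM

open MeasureTheory Set Filter Topology
open scoped ENNReal Real InnerProductSpace

/-- The volume of the unit ball of `ℝ^d`. -/
noncomputable def kap (d : ℕ) : ℝ≥0∞ := volume (Metric.ball (0 : V d) 1)

/-- The harmonic mean `M_{-1}(v_{i,E})` of the volumes of the projections of `E` to the subspaces
`g (ℝ^i × 0)`, `g` in the orthogonal group with the measure `μ`. -/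
noncomputable def Mneg (n i : ℕ) (μ : Measure (O n)) (E : Set (V n)) : ℝ≥0∞ :=
  (∫⁻ g, (volume ((Sub n i g).orthogonalProjectionOnto '' E))⁻¹ ∂μ)⁻¹

theorem kap_ne_zero (d : ℕ) : kap d ≠ 0 := (Metric.measure_ball_pos volume _ one_pos).ne'
theorem kap_ne_top (d : ℕ) : kap d ≠ ∞ := measure_ball_lt_top.ne

theorem norm_pr_le {n i : ℕ} (h : i ≤ n) (x : V n) : ‖pr h x‖ ≤ ‖x‖ := by
  rw [EuclideanSpace.norm_eq, EuclideanSpace.norm_eq]
  apply Real.sqrt_le_sqrt
  have h1 : ∑ j : Fin i, ‖(pr h x) j‖ ^ 2 = ∑ j ∈ Finset.univ.map (Fin.castLEEmb h), ‖x j‖ ^ 2 := by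
    rw [Finset.sum_map]
    rfl
  rw [h1]
  exact Finset.sum_le_sum_of_subset_of_nonneg (Finset.subset_univ _) fun _ _ _ => by positivity

/-- Extension by zero. -/
noncomputable def ez (n : ℕ) {i : ℕ} (y : V i) : V n :=
  WithLp.toLp 2 (fun j => if h : (j : ℕ) < i then y ⟨j, h⟩ else 0)

theorem pr_ez {n i : ℕ} (h : i ≤ n) (y : V i) : pr h (ez n y) = y := by
  ext j
  unfold pr ez
  simp

theorem norm_ez {n i : ℕ} (h : i ≤ n) (y : V i) : ‖ez n y‖ = ‖y‖ := by
  rw [EuclideanSpace.norm_eq, EuclideanSpace.norm_eq]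
  congr 1
  have h1 : ∑ j : Fin i, ‖y j‖ ^ 2 = ∑ j ∈ Finset.univ.map (Fin.castLEEmb h), ‖(ez n y) j‖ ^ 2 := by
    rw [Finset.sum_map]
    apply Finset.sum_congr rfl
    intro j _
    unfold ez
    simp
  rw [h1]
  symm
  apply Finset.sum_subset (Finset.subset_univ _)
  intro j _ hj
  have : ¬ (j : ℕ) < i := by
    intro hlt
    apply hj
    rw [Finset.mem_map]
    exact ⟨⟨j, hlt⟩, Finset.mem_univ _, rfl⟩
  unfold ez
  simp [this]

theorem shadow_ball {n i : ℕ} (h : i ≤ n) (g : O n) :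
    shadow h g (Metric.ball (0 : V n) 1) = Metric.ball (0 : V i) 1 := by
  ext y
  constructor
  · rintro ⟨x, hx, rfl⟩
    rw [mem_ball_zero_iff] at hx ⊢
    calc ‖pr h (act g⁻¹ x)‖ ≤ ‖act g⁻¹ x‖ := norm_pr_le h _
      _ = ‖x‖ := N386.TM_EQB.norm_act _ _
      _ < 1 := hx
  · intro hy
    rw [mem_ball_zero_iff] at hy
    refine ⟨act g (ez n y), ?_, ?_⟩
    · rw [mem_ball_zero_iff, N386.TM_EQB.norm_act, norm_ez h]
      exact hy
    · simp only [act_inv_act, pr_ez]

/-- The final statement. -/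
def Goal : Prop := ∀ (n i : ℕ), 1 ≤ i → i < n → ∀ μ : Measure (O n), IsProbabilityMeasure μ →
  μ.IsMulLeftInvariant →
  IsLeast {c : ℝ≥0∞ | ∀ E : Set (V n), MeasurableSet E →
    kap n ^ (((n : ℝ) - i) / n) * volume E ^ ((i : ℝ) / n) ≤
      c * kap n / kap i * Mneg n i μ E} 1

theorem goal_of (hP : S_PRJ)
    (hC : ∀ (n i : ℕ) (_ : 1 ≤ i) (h : i ≤ n) (μ : Measure (O n)), IsProbabilityMeasure μ →
      μ.IsMulLeftInvariant → ∀ K : Set (V n), IsCompact K →
      ∫⁻ g, (volume (shadow h g K))⁻¹ ∂μ ≤ (volume (Metric.ball (0 : V i) 1))⁻¹ *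
        (volume (Metric.ball (0 : V n) 1) / volume K) ^ ((i : ℝ) / n)) : Goal := by
  intro n i hi hin μ hμ hμl
  have hn0 : 0 < n := by omega
  have hnR : (0 : ℝ) < n := by exact_mod_cast hn0
  have hiR : (0 : ℝ) < i := by exact_mod_cast hi
  have hinR : (i : ℝ) < n := by exact_mod_cast hin
  have hp : 0 < (i : ℝ) / n := by positivity
  have hq : 0 < ((n : ℝ) - i) / n := div_pos (by linarith) hnR
  have hM : ∀ E, Mneg n i μ E = (∫⁻ g, (volume (shadow hin.le g E))⁻¹ ∂μ)⁻¹ := by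
    intro E
    unfold Mneg
    congr 1
    apply lintegral_congr
    intro g
    rw [hP n i hin.le g E]
  have k0 := kap_ne_zero n
  have k1 := kap_ne_top n
  have k0' := kap_ne_zero i
  have k1' := kap_ne_top i
  constructor
  · intro E hE
    rw [one_mul]
    -- reduce to compact subsets
    set RHS := kap n / kap i * Mneg n i μ E with hRHS
    have hcomp : ∀ K : Set (V n), K ⊆ E → IsCompact K → volume K ≠ 0 →
        kap n ^ (((n : ℝ) - i) / n) * volume K ^ ((i : ℝ) / n) ≤ RHS := by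
      intro K hKE hK hK0
      have hK1 : volume K ≠ ∞ := hK.measure_lt_top.ne
      have h1 := hC n i hi hin.le μ hμ hμl K hK
      have h2 : (∫⁻ g, (volume (shadow hin.le g K))⁻¹ ∂μ)⁻¹ ≤ Mneg n i μ E := by
        rw [hM E]
        apply ENNReal.inv_le_inv.2
        apply lintegral_mono
        intro g
        exact ENNReal.inv_le_inv.2 (measure_mono (shadow_mono _ _ hKE))
      have h3 : kap i * (volume K / kap n) ^ ((i : ℝ) / n) ≤
          (∫⁻ g, (volume (shadow hin.le g K))⁻¹ ∂μ)⁻¹ := by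
        rw [← ENNReal.inv_le_inv, inv_inv]
        refine h1.trans (le_of_eq ?_)
        change (kap i)⁻¹ * (kap n / volume K) ^ ((i : ℝ) / n) = _
        rw [ENNReal.mul_inv (Or.inl k0') (Or.inl k1'), ← ENNReal.inv_rpow, ENNReal.inv_div
          (Or.inl k1) (Or.inl k0)]
      calc kap n ^ (((n : ℝ) - i) / n) * volume K ^ ((i : ℝ) / n)
          = kap n / kap i * (kap i * (volume K / kap n) ^ ((i : ℝ) / n)) := by
            rw [ENNReal.div_rpow_of_nonneg _ _ hp.le, ← mul_assoc,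
              ENNReal.div_mul_cancel k0' k1']
            have e1 : kap n ^ (((n : ℝ) - i) / n) = kap n / kap n ^ ((i : ℝ) / n) := by
              have : ((n : ℝ) - i) / n = 1 - (i : ℝ) / n := by field_simp
              rw [this, ENNReal.rpow_sub _ _ k0 k1, ENNReal.rpow_one]
            rw [e1, ENNReal.div_eq_inv_mul, ENNReal.div_eq_inv_mul]
            ring
        _ ≤ RHS := by
            rw [hRHS]
            gcongr
            exact h3.trans h2
    -- conclusion
    have hk0 : kap n ^ (((n : ℝ) - i) / n) ≠ 0 := (ENNReal.rpow_pos (pos_iff_ne_zero.2 k0) k1).ne'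
    have hk1 : kap n ^ (((n : ℝ) - i) / n) ≠ ∞ := ENNReal.rpow_ne_top_of_nonneg hq.le k1
    have h4 : volume E ≤ (RHS / kap n ^ (((n : ℝ) - i) / n)) ^ ((i : ℝ) / n)⁻¹ := by
      apply le_of_forall_lt
      intro y hy
      obtain ⟨K, hKE, hK, hyK⟩ := hE.exists_lt_isCompact hy
      have hK0 : volume K ≠ 0 := (lt_of_le_of_lt zero_le' hyK).ne'
      refine lt_of_lt_of_le hyK ?_
      rw [ENNReal.le_rpow_inv_iff hp]
      rw [ENNReal.le_div_iff_mul_le (Or.inl hk0) (Or.inl hk1), mul_comm]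
      exact hcomp K hKE hK hK0
    rw [ENNReal.le_rpow_inv_iff hp, ENNReal.le_div_iff_mul_le (Or.inl hk0) (Or.inl hk1),
      mul_comm] at h4
    exact h4
  · intro c hc
    have h1 := hc (Metric.ball (0 : V n) 1) measurableSet_ball
    rw [hM] at h1
    simp only [shadow_ball, lintegral_const, measure_univ, mul_one, inv_inv] at h1
    change kap n ^ (((n : ℝ) - i) / n) * kap n ^ ((i : ℝ) / n) ≤ c * kap n / kap i * kap i at h1
    rw [ENNReal.div_mul_cancel k0' k1', ← ENNReal.rpow_add _ _ k0 k1] at h1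
    have : ((n : ℝ) - i) / n + (i : ℝ) / n = 1 := by field_simp; ring
    rw [this, ENNReal.rpow_one] at h1
    calc (1 : ℝ≥0∞) = kap n * (kap n)⁻¹ := (ENNReal.mul_inv_cancel k0 k1).symm
      _ ≤ c * kap n * (kap n)⁻¹ := by gcongr
      _ = c := by rw [mul_assoc, ENNReal.mul_inv_cancel k0 k1, mul_one]

end Pool.Agent.N502.TM
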