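import Pool.Agent.N502.TM.Fin

/-! # The final statement in coordinates -/

set_option autoImplicit false

namespace Pool.Agent.N502.TM

open MeasureTheory Set Filter Topology
open scoped ENNReal Real InnerProductSpace

/-- The inner products of `x` with the first `i` columns of the orthogonal matrix `g`: the
coordinates of the orthogonal projection of `x` to the span `S` of these columns in this
orthonormal basis of `S`. -/
noncomputable def cor {n i : ℕ} (h : i ≤ n) (g : O n) (x : V n) : V i :=
  WithLp.toLp 2 fun j => ∑ k, x k * (g : Matrix (Fin n) (Fin n) ℝ) k (Fin.castLE h j)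

/-- The `i`-dimensional volume of the orthogonal projection of `E` to the span of the first `i`
columns of `g`. -/
noncomputable def vcor {n i : ℕ} (h : i ≤ n) (E : Set (V n)) (g : O n) : ℝ≥0∞ :=
  volume (cor h g '' E)

/-- The harmonic mean `M_{-1}(v_{i,E})` of these volumes. -/
noncomputable def Mh {n i : ℕ} (h : i ≤ n) (μ : Measure (O n)) (E : Set (V n)) : ℝ≥0∞ :=
  (∫⁻ g, (vcor h E g)⁻¹ ∂μ)⁻¹

/-- The inequality with the constant `c` for the set `E`. -/
def Ineq {n i : ℕ} (h : i ≤ n) (μ : Measure (O n)) (c : ℝ≥0∞) (E : Set (V n)) : Prop :=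
  kap n ^ (((n : ℝ) - i) / n) * volume E ^ ((i : ℝ) / n) ≤ c * kap n / kap i * Mh h μ E

theorem cor_eq {n i : ℕ} (h : i ≤ n) (g : O n) (x : V n) : cor h g x = pr h (act g⁻¹ x) := by
  ext j
  unfold cor pr
  change ∑ k, x k * (g : Matrix (Fin n) (Fin n) ℝ) k (Fin.castLE h j) =
    (Matrix.mulVec ((g⁻¹ : O n) : Matrix (Fin n) (Fin n) ℝ) (WithLp.ofLp x)) (Fin.castLE h j)
  unfold Matrix.mulVec dotProduct
  apply Finset.sum_congr rfl
  intro k _
  exact mul_comm _ _

theorem vcor_eq {n i : ℕ} (hP : S_PRJ) (h : i ≤ n) (E : Set (V n)) (g : O n) :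
    vcor h E g = volume ((Sub n i g).orthogonalProjectionOnto '' E) := by
  rw [hP n i h g E]
  unfold vcor shadow
  congr 1
  exact image_congr fun x _ => cor_eq h g x

theorem goal2 (hP : S_PRJ) (hG : Goal) {n i : ℕ} (hi : 1 ≤ i) (hin : i < n) (μ : Measure (O n))
    (hμ : IsProbabilityMeasure μ) (hμl : μ.IsMulLeftInvariant) :
    IsLeast {c : ℝ≥0∞ | ∀ E : Set (V n), MeasurableSet E → Ineq hin.le μ c E} 1 := by
  have h1 := hG n i hi hin μ hμ hμl
  have h2 : ∀ E, Mh hin.le μ E = Mneg n i μ E := by
    intro E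
    unfold Mh Mneg
    congr 1
    apply lintegral_congr
    intro g
    rw [vcor_eq hP]
  have h3 : {c : ℝ≥0∞ | ∀ E : Set (V n), MeasurableSet E → Ineq hin.le μ c E} =
      {c : ℝ≥0∞ | ∀ E : Set (V n), MeasurableSet E →
        kap n ^ (((n : ℝ) - i) / n) * volume E ^ ((i : ℝ) / n) ≤
          c * kap n / kap i * Mneg n i μ E} := by
    ext c
    constructor
    · intro h E hE
      have := h E hE
      unfold Ineq at this
      rwa [h2] at this
    · intro h E hE
      unfold Ineq
      rw [h2]
      exact h E hE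
  rw [h3]
  exact h1

end Pool.Agent.N502.TM
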